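import Mathlib
import Pool.Agent.Lib.MP_4b02fd_al.Main
import Pool.Agent.Lib.MP_4b02fd_al.FinGenPT

set_option autoImplicit false

open Topology unitInterval Set

namespace Pool.Agent.Results.MP_4b02fd_al.PuncturedTorus

/-- The once-punctured torus `(ℝ²/ℤ²) \ {0}`. -/
def PT : Type := {x : UnitAddCircle × UnitAddCircle // x ≠ 0}

instance : TopologicalSpace PT := instTopologicalSpaceSubtype

/-- The base point `(1/2, 1/2)`. -/
noncomputable def x0 : PT :=
  ⟨(((1 / 2 : ℝ) : UnitAddCircle), ((1 / 2 : ℝ) : UnitAddCircle)),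
    fun h => Pool.Agent.Lib.MP_4b02fd_al.half_ne (congrArg Prod.fst h)⟩

/-- A closed curve `γ : ℝ/ℤ → PT` as a path from `γ 0` to `γ 0`. -/
def curvePath (γ : C(UnitAddCircle, PT)) : Path (γ 0) (γ 0) where
  toFun t := γ ((t : ℝ) : UnitAddCircle)
  continuous_toFun := by
    have h : Continuous fun t : I => ((t : ℝ) : UnitAddCircle) :=
      (AddCircle.continuous_mk' 1).comp continuous_subtype_val
    exact γ.continuous.comp h
  source' := by simp
  target' := by
    have h : (((1 : I) : ℝ) : UnitAddCircle) = 0 := AddCircle.coe_period 1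
    rw [h]

/-- `g ∈ π₁(PT, x0)` lies in the conjugacy class represented by the closed curve `γ`: it is the
class of the loop `δ γ δ⁻¹` for a path `δ` from `x0` to `γ 0`. -/
def Represents (g : FundamentalGroup PT x0) (γ : C(UnitAddCircle, PT)) : Prop :=
  ∃ δ : Path x0 (γ 0), g = Path.Homotopic.Quotient.mk (δ.trans ((curvePath γ).trans δ.symm))

/-- The closed curve `γ` is simple and nonseparating. -/
def SimpleNonsep (γ : C(UnitAddCircle, PT)) : Prop :=
  Function.Injective γ ∧ IsConnected (Set.range γ)ᶜ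

/-- The word length of `g` with respect to `T`: the least length of an expression of `g` as a
product of elements of `T` and their inverses (`⊤` if there is none). -/
noncomputable def wordLength {G : Type} [Group G] (T : Set G) (g : G) : ℕ∞ :=
  sInf {k : ℕ∞ | ∃ l : List G, (∀ x ∈ l, x ∈ T ∨ x⁻¹ ∈ T) ∧ l.prod = g ∧ k = l.length}

/-- The diameter of `G` with respect to `T`. -/
noncomputable def diameter {G : Type} [Group G] (T : Set G) : ℕ∞ := ⨆ g : G, wordLength T g

theorem result : PathConnectedSpace PT ∧ Group.FG (FundamentalGroup PT x0) ∧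
    (∃ γ, SimpleNonsep γ) ∧
    ∃ S : Set (FundamentalGroup PT x0), Subgroup.closure S = ⊤ ∧
      (∀ γ, SimpleNonsep γ → ∃ g ∈ S, Represents g γ) ∧
      ∀ n, 2 ≤ n →
        diameter ((QuotientGroup.mk' (derivedSeries (FundamentalGroup PT x0) n)) '' S) = ⊤ :=
  ⟨Pool.Agent.Lib.MP_4b02fd_al.main.1, Pool.Agent.Lib.MP_4b02fd_al.fg_PT,
    Pool.Agent.Lib.MP_4b02fd_al.main.2⟩

end Pool.Agent.Results.MP_4b02fd_al.PuncturedTorus
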